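import Pool.Agent.Y482.CY.Stm
import Pool.Agent.TH193.CY.Cont

/-!
# Continuity of the (1,1)-tangle at the root of unity
-/

set_option autoImplicit false

namespace Pool.Agent.Y151.CY

open Finset Matrix Filter
open Pool.Agent.H550R3.Jones (br brf)
open Pool.Agent.TH193.CY (crossP2 crossN2 crossP2_cont crossN2_cont mat_mul_cont mat_pow_cont)
open Pool.Agent.W707.TV (vh vh_ne br_vh_ne)
open Pool.Agent.H756R3.J (zpow_cont)
open Pool.Agent.Y482.CY
open scoped Topology

theorem on12_cont {v : ℂ} {b : ℕ} (A : ℂ → Matrix (Fin b × Fin b) (Fin b × Fin b) ℂ)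
    (hA : ∀ p q, ContinuousAt (fun v => A v p q) v) (x y : B3 b) :
    ContinuousAt (fun v => on12 (A v) x y) v := by
  unfold on12
  by_cases h : x.2.2 = y.2.2
  · simp only [if_pos h]
    exact hA _ _
  · simp only [if_neg h]
    exact continuousAt_const

theorem on23_cont {v : ℂ} {b : ℕ} (A : ℂ → Matrix (Fin b × Fin b) (Fin b × Fin b) ℂ)
    (hA : ∀ p q, ContinuousAt (fun v => A v p q) v) (x y : B3 b) :
    ContinuousAt (fun v => on23 (A v) x y) v := by
  unfold on23
  by_cases h : x.1 = y.1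
  · simp only [if_pos h]
    exact hA _ _
  · simp only [if_neg h]
    exact continuousAt_const

theorem thr_cont {v : ℂ} (hv : v ≠ 0) {a b : ℕ}
    (hB : ∀ k : ℕ, 0 < k → k < b → br v k ≠ 0) (p : B3 b × Fin a) (q : Fin a × B3 b) :
    ContinuousAt (fun v => thr a b v p q) v := by
  unfold thr
  exact tendsto_finsetSum _ fun i _ => tendsto_finsetSum _ fun j _ =>
    ((crossP2_cont hv hB _ _).mul (crossP2_cont hv hB _ _)).mul (crossP2_cont hv hB _ _)

theorem bck_cont {v : ℂ} (hv : v ≠ 0) {a b : ℕ}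
    (hA : ∀ k : ℕ, 0 < k → k < a → br v k ≠ 0) (p : Fin a × B3 b) (q : B3 b × Fin a) :
    ContinuousAt (fun v => bck a b v p q) v := by
  unfold bck
  exact tendsto_finsetSum _ fun i _ => tendsto_finsetSum _ fun j _ =>
    ((crossP2_cont hv hA _ _).mul (crossP2_cont hv hA _ _)).mul (crossP2_cont hv hA _ _)

theorem tang_cont {v : ℂ} (hv : v ≠ 0) (n : ℕ) {a b : ℕ}
    (hA : ∀ k : ℕ, 0 < k → k < a → br v k ≠ 0) (hB : ∀ k : ℕ, 0 < k → k < b → br v k ≠ 0) :
    ContinuousAt (tang n a b) v := by
  unfold tang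
  by_cases ha : 0 < a
  · simp only [dif_pos ha]
    refine tendsto_finsetSum _ fun x _ => tendsto_finsetSum _ fun y _ => ?_
    refine ContinuousAt.mul (ContinuousAt.mul (zpow_cont hv _) ?_) ?_
    · exact mat_mul_cont (fun v => bck a b v) (fun v => thr a b v) (bck_cont hv hA)
        (thr_cont hv hB) _ _
    · unfold bop
      exact mat_pow_cont (fun v => on12 (crossN2 b b v) * on23 (crossP2 b b v))
        (mat_mul_cont (fun v => on12 (crossN2 b b v)) (fun v => on23 (crossP2 b b v))
          (on12_cont (fun v => crossN2 b b v) (crossN2_cont hv hB))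
          (on23_cont (fun v => crossP2 b b v) (crossP2_cont hv hB))) n _ _
  · simp only [dif_neg ha]
    exact continuousAt_const

theorem cont : S_CONT := by
  intro n M a b ha hb
  refine tang_cont (vh_ne M) n (fun k h0 hk => ?_) (fun k h0 hk => ?_)
  · exact br_vh_ne (M := M) (k := (k : ℤ)) (by omega) (by omega)
  · exact br_vh_ne (M := M) (k := (k : ℤ)) (by omega) (by omega)

end Pool.Agent.Y151.CY
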