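import Pool.Agent.Y482.CY.Stm
import Pool.Agent.W125.TV.Brf
import Pool.Agent.W120.VC.Tet
import Pool.Agent.H776R3.EvenVol.TaskL

/-!
# Upper bound for two Gaussian binomials at the root of unity
-/

set_option autoImplicit false

namespace Pool.Agent.Y151.CY

open Filter
open Pool.Agent.H550R3.Jones (br brf)
open Pool.Agent.W707.TV (vh Rh Rh_pos brf_vh_ne)
open Pool.Agent.Y482.CY
open Pool.Agent.H811R3.EvenVolR (lob_refl lob_per)
open GapVol (lob)
open scoped Real Topology

theorem lob_third : 3 * lob (π / 3) = 2 * lob (π / 6) := by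
  have h1 := Pool.Agent.W305.VC.lob_two_mul (π / 6)
  have h2 : lob (π / 6 + π / 2) = -lob (π / 3) := by
    rw [← lob_refl]
    congr 1
    ring
  rw [h2, show 2 * (π / 6) = π / 3 by ring] at h1
  linarith

theorem lob_tri {x y : ℝ} (hx : 0 ≤ x) (hy : 0 ≤ y) (h : x + y ≤ π) :
    lob x + lob y - lob (x + y) ≤ 2 * lob (π / 6) := by
  have hp := Real.pi_pos
  have h1 := Pool.Agent.W120.VC.tet (π / 3) (π / 3) (π / 3) x y (π - (x + y)) (by positivity)
    (by positivity) (by positivity) (by ring) hx hy (by linarith) (by ring)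
  rw [lob_refl] at h1
  have h2 := lob_third
  have h3 : (x - π / 3) * Real.log (2 * Real.sin (π / 3)) +
      (y - π / 3) * Real.log (2 * Real.sin (π / 3)) +
      (π - (x + y) - π / 3) * Real.log (2 * Real.sin (π / 3)) = 0 := by ring
  linarith

theorem lob_gen {x y : ℝ} (hx : 0 ≤ x) (hy : 0 ≤ y) (h : x + y ≤ 3 * π / 2) :
    lob x + lob y - lob (x + y) ≤ 2 * lob (π / 6) := by
  have hp := Real.pi_pos
  by_cases hx1 : π ≤ x
  · have h1 := lob_tri (x := x - π) (y := y) (by linarith) hy (by linarith)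
    have e1 : lob x = lob (x - π) := by
      rw [← lob_per (x - π)]
      congr 1
      ring
    have e2 : lob (x + y) = lob (x - π + y) := by
      rw [← lob_per (x - π + y)]
      congr 1
      ring
    rw [e1, e2]
    exact h1
  by_cases hy1 : π ≤ y
  · have h1 := lob_tri (x := x) (y := y - π) hx (by linarith) (by linarith)
    have e1 : lob y = lob (y - π) := by
      rw [← lob_per (y - π)]
      congr 1
      ring
    have e2 : lob (x + y) = lob (x + (y - π)) := by
      rw [← lob_per (x + (y - π))]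
      congr 1
      ring
    rw [e1, e2]
    exact h1
  by_cases hxy : x + y ≤ π
  · exact lob_tri hx hy hxy
  · push Not at hx1 hy1 hxy
    have e2 : lob (x + y) = lob (x + y - π) := by
      rw [← lob_per (x + y - π)]
      congr 1
      ring
    have h1 : 0 ≤ lob (x + y - π) := EvenVol.LobIneq.lob_nonneg (by linarith) (by linarith)
    have h2 := (abs_le.1 (EvenVol.LobIneq.abs_lob_le x)).2
    have h3 := (abs_le.1 (EvenVol.LobIneq.abs_lob_le y)).2
    rw [e2]
    linarith

theorem sb_bound (ε : ℝ) (hε : 0 < ε) : ∀ᶠ M : ℕ in atTop, ∀ n k : ℕ, k ≤ n → 2 * n ≤ 3 * M →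
    ‖sb (vh M) n k‖ ≤ Real.exp (M / π * (2 * lob (π / 6)) + ε * M) := by
  have t2 : ∀ᶠ M : ℕ in atTop, lob (π / 6) / π ≤ ε / 4 * M := by
    have : Tendsto (fun M : ℕ => ε / 4 * (M : ℝ)) atTop atTop :=
      Tendsto.const_mul_atTop (by positivity) tendsto_natCast_atTop_atTop
    exact this.eventually_ge_atTop _
  filter_upwards [Pool.Agent.W125.TV.brf_asymp (ε / 4) (by positivity), t2,
    eventually_ge_atTop 1] with M a1 a2 hM n k hk hn
  have hp := Real.pi_pos
  have hR := Rh_pos M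
  have hR2 : Rh M = M + 1 / 2 := rfl
  have n1 : brf (vh M) n ≠ 0 := brf_vh_ne (by omega)
  have n2 : brf (vh M) k ≠ 0 := brf_vh_ne (by omega)
  have n3 : brf (vh M) (n - k) ≠ 0 := brf_vh_ne (by omega)
  have b0 : ∀ l : ℕ, l < 2 * M + 1 →
      |Real.log ‖brf (vh M) l‖ + Rh M / π * lob (π * l / Rh M)| ≤ ε / 4 * M := fun l hl => a1 l hl
  have b1 := abs_le.1 (b0 n (by omega))
  have b2 := abs_le.1 (b0 k (by omega))
  have b3 := abs_le.1 (b0 (n - k) (by omega))
  have hsum : π * (k : ℝ) / Rh M + π * ((n - k : ℕ) : ℝ) / Rh M = π * n / Rh M := by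
    rw [Nat.cast_sub hk]
    ring
  have hnR : π * (n : ℝ) / Rh M ≤ 3 * π / 2 := by
    rw [div_le_iff₀ hR, hR2]
    have : (2 : ℝ) * n ≤ 3 * M := by exact_mod_cast hn
    nlinarith
  have h1 := lob_gen (x := π * (k : ℝ) / Rh M) (y := π * ((n - k : ℕ) : ℝ) / Rh M)
    (by positivity) (by positivity) (by rw [hsum]; exact hnR)
  rw [hsum] at h1
  have h2 := mul_le_mul_of_nonneg_left h1 (div_pos hR hp).le
  have h3 : Rh M / π * (2 * lob (π / 6)) = M / π * (2 * lob (π / 6)) + lob (π / 6) / π := by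
    rw [hR2]
    field_simp
  have hpos : 0 < ‖sb (vh M) n k‖ := by
    rw [norm_pos_iff]
    exact div_ne_zero n1 (mul_ne_zero n2 n3)
  have hlog : Real.log ‖sb (vh M) n k‖ = Real.log ‖brf (vh M) n‖ -
      (Real.log ‖brf (vh M) k‖ + Real.log ‖brf (vh M) (n - k)‖) := by
    unfold sb
    rw [norm_div, norm_mul, Real.log_div (norm_ne_zero_iff.2 n1)
      (mul_ne_zero (norm_ne_zero_iff.2 n2) (norm_ne_zero_iff.2 n3)),
      Real.log_mul (norm_ne_zero_iff.2 n2) (norm_ne_zero_iff.2 n3)]
  rw [← Real.log_le_iff_le_exp hpos, hlog]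
  rw [h3] at h2
  have h4 : Rh M / π * (lob (π * (k : ℝ) / Rh M) + lob (π * ((n - k : ℕ) : ℝ) / Rh M) -
      lob (π * n / Rh M)) = Rh M / π * lob (π * (k : ℝ) / Rh M) +
      Rh M / π * lob (π * ((n - k : ℕ) : ℝ) / Rh M) - Rh M / π * lob (π * n / Rh M) := by ring
  rw [h4] at h2
  linarith [b1.2, b2.1, b3.1]

/-- Upper bound for two Gaussian binomials at the root of unity. -/
theorem ub : S_UB := by
  intro ε hε
  filter_upwards [sb_bound (ε / 2) (by positivity)] with M hM m i a hia ham hm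
  rw [norm_mul]
  have h1 := hM (m - i) (a - i) (by omega) (by omega)
  have h2 := hM a i hia (by omega)
  refine (mul_le_mul h1 h2 (norm_nonneg _) (Real.exp_pos _).le).trans (le_of_eq ?_)
  rw [← Real.exp_add]
  congr 1
  have hp := Real.pi_pos
  field_simp
  ring

end Pool.Agent.Y151.CY
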